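import Pool.Agent.H45.Q.Adapt
import Pool.Agent.H95.End.Leaf
import Pool.Agent.H50.Q.Cov

set_option autoImplicit false

/-!
The end of the proof for codes with sides (MP_a46c6f_co, full Q1): a word of weight three with one
letter `z` and a side without own places, from trees as graphs of the rooted minors.
-/

namespace Pool.Agent.H45.Q

open Finset Pool.Agent.H98.Code
open Pool.Agent.H26.TR (KD sup pw pw_KD K_add_self K_fst_add K_cases Fam IsMin FF EE IsParts pairCode sig fst_zero_iff)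
open Pool.Agent.H45.TR (W N sg le_D eq_zero_h nmem_range_iff)
open Pool.Agent.H16.CA (toParts noz_of_zon one_of_ne row_of_nb)
open Pool.Agent.H32.AA (IsMat adj_iff)

variable {V : Type} [Fintype V] [DecidableEq V]
variable {L : Submodule (ZMod 2) (V → K)} {e : V} {D : V → K} {P : Finset (Finset V)}

/-- the sides in the form used at the end -/
theorem sides_end {S : (V → K) → Finset V → Prop} (hS : Pool.Agent.H31.Q.Sides L S) :
    Pool.Agent.H95.End.Sides L S := by
  refine ⟨fun u Y h => (hS.mem u Y h).1, fun u Y h => (hS.mem u Y h).2, hS.ex, ?_, ?_⟩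
  · intro u Y h
    obtain ⟨Y', h1, h2⟩ := hS.compl u Y h
    refine ⟨Y', h1, fun v hv => ?_⟩
    rw [h2 v]
    exact ⟨fun h3 => h3.2, fun h3 => ⟨hv, h3⟩⟩
  · intro u Y h k hk hle
    obtain ⟨k', hk', e1, e2, e3, ⟨Y₁, hY₁, h4⟩, Y₂, hY₂, h5⟩ := hS.part u Y h k hk hle
    refine ⟨k', Y₁, Y₂, h4, ?_, hY₁, hY₂, e1, e2, e3⟩
    rw [add_comm]
    exact h5

/-- **core of the adapter** -/
theorem side_core {S : (V → K) → Finset V → Prop} (hS : Pool.Agent.H31.Q.Sides L S) (hL : IsCode L)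
    (hz1 : (fun _ => z) ∈ L)
    (h : HypQ L e D) (hP : IsParts L e D P) {M0 : Finset V} (hM0 : M0 ∈ P)
    (hgz : ∀ u ∈ L, (∀ v, v ∉ M0 → v ≠ e → u v = 0 ∨ u v = D v) → (u e = 0 ∨ u e = z) →
      (∀ v ∈ M0, (u v).1 = 0) → ∀ v ∈ M0, u v = 0)
    (hmax : ∀ M ∈ P, M.card ≤ M0.card) (hk : ∃ M ∈ P, M ≠ M0)
    (hcode : IsCode (pairCode L D e M0)) (hnoz : NoZ (pairCode L D e M0))
    (hleaf : ∃ l p, Pool.Agent.H80.TB.LeafAt (pairCode L D e M0) l p)
    (heW : ∀ M ∈ P.erase M0, e ∉ M)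
    (hroot : ∀ t : Finset V → V, (∀ M ∈ P.erase M0, t M ∈ M) →
      Pool.Agent.H80.TB.RootLeaf (Pool.Agent.H45.TR.N L D (P.erase M0) t) ⟨e, heW⟩) :
    ∃ g a b : V, ∃ c : V → K, a ≠ b ∧ a ≠ g ∧ b ≠ g ∧ S c ∅ ∧ c g = z ∧ (c a).1 = 1 ∧
      (c b).1 = 1 ∧ ∀ v, v ≠ g → v ≠ a → v ≠ b → c v = 0 := by
  classical
  have heM0 : e ∉ M0 := (hP.mem M0 hM0).2.1
  -- rows
  have hrow : ∀ m : V, ∃ y : V → K, m ∈ M0 → (y ∈ L ∧ (y m).1 = 1 ∧ (∀ v ∈ M0, v ≠ m → (y v).1 = 0) ∧
      (∀ v, v ∉ M0 → v ≠ e → y v = 0 ∨ y v = D v) ∧ (y e).1 = 0) := by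
    intro m
    by_cases hm : m ∈ M0
    · obtain ⟨r, hr, hr1, hr0⟩ := exists_row hcode hnoz ⟨m, hm⟩
      rw [h.mem_pairCode heM0] at hr
      obtain ⟨u, hu, h1, h2, rfl⟩ := hr
      refine ⟨u, fun _ => ⟨hu, hr1, ?_, h1, ?_⟩⟩
      · intro v hv hvm
        exact hr0 ⟨v, hv⟩ (fun h0 => hvm (congrArg Subtype.val h0))
      · rcases h2 with h2 | h2
        · rw [h2]; rfl
        · rw [h2]; rfl
    · exact ⟨0, fun h0 => absurd h0 hm⟩
  choose y hy using hrow
  -- the row of the leaf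
  obtain ⟨l, p, hlp, c, hc, hcl, hcp, hc0⟩ := hleaf
  have hyl := hy l.1 l.2
  have hylc : (fun x : {v // v ∈ M0} => y l.1 x.1) = c := by
    apply eq_of_fst hnoz _ hc
    · intro x
      by_cases hx : x = l
      · rw [hx, hcl]; exact hyl.2.1
      · rw [hyl.2.2.1 x.1 x.2 (fun h0 => hx (Subtype.ext h0))]
        by_cases hxp : x = p
        · rw [hxp, hcp]; rfl
        · rw [hc0 x hx hxp]; rfl
    · rw [h.mem_pairCode heM0]
      refine ⟨y l.1, hyl.1, hyl.2.2.2.1, ?_, rfl⟩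
      exact K_cases _ hyl.2.2.2.2
  have hT := toParts hP
  have hQ : P.erase M0 ⊆ P := Finset.erase_subset _ _
  exact Pool.Agent.H95.End.own_free (sides_end hS) hL.iso hz1 h.noz h.letter hP hM0 hmax hgz
      y (fun m hm => hy m hm)
      ⟨l.1, l.2, p.1, p.2, fun h0 => hlp (Subtype.ext h0).symm, by
        intro v hv hvl
        have h1 := congrFun hylc ⟨v, hv⟩
        simp only at h1
        rw [h1]
        constructor
        · intro h2
          by_contra hvp
          rw [hc0 ⟨v, hv⟩ (fun h0 => hvl (congrArg Subtype.val h0))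
            (fun h0 => hvp (congrArg Subtype.val h0))] at h2
          exact absurd h2 (by decide)
        · intro h2
          have : (⟨v, hv⟩ : {v // v ∈ M0}) = p := Subtype.ext h2
          rw [this]; exact hcp⟩
      (by
        intro t ht
        have ht' : ∀ M ∈ P.erase M0, t M ∈ M := fun M hM =>
          ht M (Finset.mem_of_mem_erase hM) (Finset.ne_of_mem_erase hM)
        obtain ⟨a, hae, r, ⟨u, hu, hus, rfl⟩, hre, hra, hr0⟩ := hroot t ht'
        have inW : ∀ v, v ∈ M0 → ∀ M ∈ P.erase M0, v ∉ M := by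
          intro v hv M hM hvM
          exact Finset.disjoint_left.1 (hP.disj M (hQ hM) M0 hM0 (Finset.ne_of_mem_erase hM)) hvM hv
        refine ⟨u, hu, hre, ?_, ?_, ?_⟩
        · intro v hv
          have hve : (⟨v, inW v hv⟩ : Pool.Agent.H45.TR.W (P.erase M0)) ≠ ⟨e, heW⟩ := fun h0 =>
            heM0 ((show v = e from congrArg Subtype.val h0) ▸ hv)
          by_cases hva : (⟨v, inW v hv⟩ : Pool.Agent.H45.TR.W (P.erase M0)) = a
          · have h1 : u v = z := by rw [← hva] at hra; exact hra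
            rw [h1]; rfl
          · have h1 : u v = 0 := hr0 _ hve hva
            rw [h1]; rfl
        · have hae' : a.1 ≠ e := fun h0 => hae (Subtype.ext h0)
          obtain ⟨M, hM, haM⟩ := hP.cover a.1 hae'
          have hMM : M = M0 := by
            by_contra hne
            exact a.2 M (Finset.mem_erase.2 ⟨hne, hM⟩) haM
          refine ⟨a.1, hMM ▸ haM, ?_⟩
          intro v hv
          have hve : (⟨v, inW v hv⟩ : Pool.Agent.H45.TR.W (P.erase M0)) ≠ ⟨e, heW⟩ := fun h0 =>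
            heM0 ((show v = e from congrArg Subtype.val h0) ▸ hv)
          constructor
          · intro h1
            by_contra hne
            have h2 : u v = 0 := hr0 ⟨v, inW v hv⟩ hve (fun h0 => hne (congrArg Subtype.val h0))
            rw [h2] at h1
            exact absurd h1 (by decide)
          · intro h1
            rw [h1]; exact hra
        · intro M hM hne v hv
          have hMQ : M ∈ P.erase M0 := Finset.mem_erase.2 ⟨hne, hM⟩
          have h1 := hus v ((Pool.Agent.H45.TR.nmem_range_iff _ v).2 ⟨M, hMQ, hv⟩)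
          by_cases hvt : v = t M
          · rw [if_pos hvt]
            rw [hvt, Pool.Agent.H45.TR.sg_h hMQ] at h1
            rw [hvt]
            exact h1
          · rw [if_neg hvt]
            rw [Pool.Agent.H45.TR.sg_ne hT hQ ht' hMQ hv hvt] at h1
            exact h1)

/-- **the end**: a code with sides whose rooted minors have trees as graphs has a word of weight
three with one letter `z` and a side without own places. -/
theorem side_of_trees {S : (V → K) → Finset V → Prop} (hS : Pool.Agent.H31.Q.Sides L S)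
    (hL : IsCode L) (hz1 : (fun _ => z) ∈ L)
    (hz : ∀ u ∈ L, ZOnly u → u = 0 ∨ u = fun _ => z) (hcard : 2 ≤ Fintype.card V)
    (hT : ∀ (e : V) (D : V → K) (P : Finset (Finset V)) (M0 : Finset V) (t : Finset V → V),
      HypQ L e D → IsParts L e D P → M0 ∈ P → (∃ M1 ∈ P, M1 ≠ M0) → (∀ M ∈ P.erase M0, t M ∈ M) →
      (∀ M ∈ P.erase M0, e ∉ M) → IsCode (N L D (P.erase M0) t) → NoZ (N L D (P.erase M0) t) →
      (graph (N L D (P.erase M0) t)).IsTree) :
    ∃ g a b : V, ∃ c : V → K, a ≠ b ∧ a ≠ g ∧ b ≠ g ∧ S c ∅ ∧ c g = z ∧ (c a).1 = 1 ∧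
      (c b).1 = 1 ∧ ∀ v, v ≠ g → v ≠ a → v ≠ b → c v = 0 := by
  classical
  have hcov := Pool.Agent.H50.Q.splitFull_of_sides hL.iso hS
  have hwc : ∀ u ∈ L, u ≠ 0 → ZFree u → ∀ e : V, (∀ v, v ≠ e → u v ≠ 0) → ∃ g, Splits L u g :=
    fun u hu h0 hzf e he => Pool.Agent.H50.Q.wc_off hS hu h0 hzf ⟨e, he⟩
  haveI : Nontrivial V := Fintype.one_lt_card_iff_nontrivial.1 (by omega)
  obtain ⟨e⟩ : Nonempty V := inferInstance
  obtain ⟨c0, hc0⟩ := exists_ne e
  obtain ⟨D, h, hD, hDe⟩ := startQ hL hz1 hz hwc e (hcov e) ⟨c0, hc0⟩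
  obtain ⟨P, hP⟩ := h.exists_parts
  have hPne : P.Nonempty := by
    obtain ⟨M, hM, -⟩ := hP.cover c0 hc0
    exact ⟨M, hM⟩
  obtain ⟨M0, hM0, hmax⟩ := Finset.exists_max_image P Finset.card hPne
  obtain ⟨M1, hM1, hM10⟩ := exists_other h hP hD hDe hM0
  have hz' : ∀ u ∈ L, ZOnly u → u = 0 ∨ ∀ v, u v = z := by
    intro u hu h0
    rcases hz u hu h0 with h1 | h1
    · exact Or.inl h1
    · exact Or.inr fun v => congrFun h1 v
  have hparts := toParts hP
  have hQ : P.erase M0 ⊆ P := Finset.erase_subset _ _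
  have heW : ∀ M ∈ P.erase M0, e ∉ M := fun M hM => (hP.mem M (hQ hM)).2.1
  have heM0 := (hP.mem M0 hM0).2.1
  have inW : ∀ v, v ∈ M0 → ∀ M ∈ P.erase M0, v ∉ M := by
    intro v hv M hM hvM
    exact Finset.disjoint_left.1 (hP.disj M (hQ hM) M0 hM0 (Finset.ne_of_mem_erase hM)) hvM hv
  obtain ⟨m0, hm0⟩ := Finset.nonempty_iff_ne_empty.2 (hP.mem M0 hM0).1
  have hnt : ∃ m : W (P.erase M0), m ≠ ⟨e, heW⟩ :=
    ⟨⟨m0, inW m0 hm0⟩, fun h0 => heM0 ((show m0 = e from congrArg Subtype.val h0) ▸ hm0)⟩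
  -- the minors
  have hN : ∀ t : Finset V → V, (∀ M ∈ P.erase M0, t M ∈ M) →
      IsCode (N L D (P.erase M0) t) ∧ NoZ (N L D (P.erase M0) t) ∧
        (graph (N L D (P.erase M0) t)).IsTree := by
    intro t ht
    have h1 := Pool.Agent.H45.TR.isCode (h := t) hL hparts hQ h.letter
    have h2 := glob_noZ_N h hP hz' hM0 hM1 hM10 ht
    exact ⟨h1, h2, hT e D P M0 t h hP hM0 ⟨M1, hM1, hM10⟩ ht heW h1 h2⟩
  have hcode : IsCode (pairCode L D e M0) :=
    minor_isCode hL Subtype.val_injective (fun v _ => h.sig_ne v)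
  -- some transversal
  obtain ⟨t, ht⟩ : ∃ t : Finset V → V, ∀ M ∈ P.erase M0, t M ∈ M := by
    refine ⟨fun M => if hM : M.Nonempty then hM.choose else e, ?_⟩
    intro M hM
    have hne : M.Nonempty := Finset.nonempty_iff_ne_empty.2 (hP.mem M (hQ hM)).1
    simp only [dif_pos hne]
    exact hne.choose_spec
  obtain ⟨h1, h2, h3⟩ := hN t ht
  obtain ⟨H, hH0⟩ := exists_matrix h1 h2
  have hH : IsMat (N L D (P.erase M0) t) H := hH0
  have lower : ∀ u ∈ L, (u e).1 = 0 →
      (∀ v, v ∉ Set.range (Subtype.val : W (P.erase M0) → V) → kf (u v) (sg D (P.erase M0) t v) = 0) →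
      (fun x : {v // v ∈ M0} => u x.1) ∈ pairCode L D e M0 := by
    intro u hu hue hus
    rw [h.mem_pairCode heM0]
    refine ⟨u, hu, ?_, K_cases _ hue, rfl⟩
    intro v hv hve
    obtain ⟨M, hM, hvM⟩ := hP.cover v hve
    have hMne : M ≠ M0 := by
      rintro rfl
      exact hv hvM
    exact Pool.Agent.H45.TR.le_D h.iso hparts hQ h.letter ht hu hue hus
      ((Pool.Agent.H45.TR.nmem_range_iff _ v).2 ⟨M, Finset.mem_erase.2 ⟨hMne, hM⟩, hvM⟩)
  -- no `{0,z}`-words in the pair code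
  have hnoz : NoZ (pairCode L D e M0) := by
    intro a ha hza
    rw [h.mem_pairCode heM0] at ha
    obtain ⟨u, hu, hu1, hu2, rfl⟩ := ha
    funext x
    exact glob_noZ hP h hz' hM0 hM1 hM10 hu hu1 hu2 (fun v hv => hza ⟨v, hv⟩) x.1 x.2
  refine side_core hS hL hz1 h hP hM0 (fun u hu h1 h2 h3 v hv => glob_noZ hP h hz' hM0 hM1 hM10 hu h1 h2 h3 v hv) hmax ⟨M1, hM1, hM10⟩ hcode hnoz ?_ heW ?_
  · -- a leaf of the pair code
    set G := graph (N L D (P.erase M0) t) with hG
    haveI : Nontrivial (W (P.erase M0)) := by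
      obtain ⟨m, hm⟩ := hnt
      exact ⟨m, ⟨e, heW⟩, hm⟩
    obtain ⟨l, hl, hldeg⟩ : ∃ l : W (P.erase M0), l ≠ ⟨e, heW⟩ ∧ G.degree l = 1 := by
      obtain ⟨u, v, huv, hu1, hv1⟩ := h3.exists_ne_and_degree_eq_one
      by_cases hu : u = ⟨e, heW⟩
      · exact ⟨v, fun h0 => huv (hu.trans h0.symm), hv1⟩
      · exact ⟨u, hu, hu1⟩
    obtain ⟨p, hp, hpu⟩ := SimpleGraph.degree_eq_one_iff_existsUnique_adj.1 hldeg
    have hlp : l ≠ p := hp.ne
    have hnb : ∀ b, G.Adj l b ↔ b = p := fun b => ⟨fun hb => hpu b hb, fun hb => hb ▸ hp⟩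
    have hlM0 : l.1 ∈ M0 := by
      have hle : l.1 ≠ e := fun h0 => hl (Subtype.ext h0)
      obtain ⟨M, hM, hlM⟩ := hP.cover l.1 hle
      by_contra hne
      refine l.2 M (Finset.mem_erase.2 ⟨?_, hM⟩) hlM
      rintro rfl
      exact hne hlM
    have hpe : p ≠ ⟨e, heW⟩ := by
      intro hpe
      have hall := part_full h hP hM0 ht heW hH {l} (Finset.singleton_nonempty l)
        (fun h0 => hl (Finset.mem_singleton.1 h0).symm) (by
          intro x hx y hy hye
          rw [Finset.mem_singleton.1 hx]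
          by_contra hne
          have hly : l ≠ y := fun h0 => hy (Finset.mem_singleton.2 h0.symm)
          exact hye (((hnb y).1 ((adj_iff hH l y).2 ⟨hly, one_of_ne _ hne⟩)).trans hpe)) (by
          rw [Finset.sum_singleton, ← hpe]
          exact ((adj_iff hH p l).1 hp.symm).2)
      have hM0l : M0 = {l.1} := by
        ext v
        rw [Finset.mem_singleton]
        constructor
        · intro hv
          have := hall ⟨v, inW v hv⟩ (fun h0 => heM0 ((show v = e from congrArg Subtype.val h0) ▸ hv))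
          exact congrArg Subtype.val (Finset.mem_singleton.1 this)
        · intro hv
          rw [hv]; exact hlM0
      have hev := even_card h hP hz1 hM0
      rw [hM0l, Finset.card_singleton] at hev
      exact absurd hev (by decide)
    have hpM0 : p.1 ∈ M0 := by
      have hpe' : p.1 ≠ e := fun h0 => hpe (Subtype.ext h0)
      obtain ⟨M, hM, hpM⟩ := hP.cover p.1 hpe'
      by_contra hne
      refine p.2 M (Finset.mem_erase.2 ⟨?_, hM⟩) hpM
      rintro rfl
      exact hne hpM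
    obtain ⟨c, ⟨u, hu, hus, rfl⟩, hcl, hcp, hc0'⟩ := row_of_nb h1 h2 hH hlp hnb
    have hue : (u e).1 = 0 := by
      have := hc0' ⟨e, heW⟩ (Ne.symm hl) (Ne.symm hpe)
      have h5 : u e = 0 := this
      rw [h5]; rfl
    refine ⟨⟨l.1, hlM0⟩, ⟨p.1, hpM0⟩, fun h0 => hlp (Subtype.ext (Subtype.mk.inj h0)),
      fun x => u x.1, lower u hu hue hus, hcl, hcp, ?_⟩
    rintro ⟨v, hv⟩ hvl hvp
    exact hc0' ⟨v, inW v hv⟩ (fun h0 => hvl (Subtype.ext (show v = l.1 from congrArg Subtype.val h0)))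
      (fun h0 => hvp (Subtype.ext (show v = p.1 from congrArg Subtype.val h0)))
  · intro t' ht'
    obtain ⟨g1, g2, g3⟩ := hN t' ht'
    obtain ⟨H', hH0'⟩ := exists_matrix g1 g2
    have hH' : IsMat (N L D (P.erase M0) t') H' := hH0'
    obtain ⟨a, hae, hnb⟩ := root_nb h hP hM0 ht' heW hH' g3 hnt
    obtain ⟨c, hc, hc1, hca, hc0'⟩ := row_of_nb g1 g2 hH' (Ne.symm hae) hnb
    exact ⟨a, hae, c, hc, hc1, hca, hc0'⟩


end Pool.Agent.H45.Q
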